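import Pool.Agent.Helper22.FF.Abs
import Pool.Agent.Helper22.TW.Stmts

/-!
# EQV: places over conjugate embeddings have conjugate values
-/

set_option autoImplicit false

namespace Pool.Agent.Helper22.FF

open Pool.Agent.Helper14.BSC Polynomial Pool.Agent.Helper60.FF Pool.Agent.Helper18.FF3

section

variable {k Ω : Type} [Field k] [Field Ω] [Algebra k Ω] {D : Sec k Ω} {p : ℕ} [Fact p.Prime]
  {σ σ' : k →+* ℂ_[p]} {E₁ : IntermediateField ℚ_[p] ℂ_[p]}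

/-- the conjugate of the residue map -/
noncomputable def eqv_phi (P : Place D p σ) (hv : ∀ x : P.C, P.φ x ∈ E₁)
    (ρ : E₁ →ₐ[ℚ_[p]] ℂ_[p]) : P.C →+* ℂ_[p] :=
  (ρ : E₁ →+* ℂ_[p]).comp (P.φ.codRestrict E₁ hv)

theorem eqv_phi_apply (P : Place D p σ) (hv : ∀ x : P.C, P.φ x ∈ E₁)
    (ρ : E₁ →ₐ[ℚ_[p]] ℂ_[p]) (x : P.C) : eqv_phi P hv ρ x = ρ ⟨P.φ x, hv x⟩ := rfl

/-- the conjugate place -/
noncomputable def eqv_place (P : Place D p σ) [FiniteDimensional ℚ_[p] E₁]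
    (hv : ∀ x : P.C, P.φ x ∈ E₁)
    (hk : ∀ x : P.C, P.φ x ≠ 0 → ∀ M : ℕ, 0 < M → ∀ (c : k) (g : LL D),
      (x : LL D) = algebraMap k (LL D) c * g ^ M → ∃ w ∈ E₁, w ≠ 0 ∧ σ c = P.φ x * w ^ M)
    (hσ : ∀ x, σ x ∈ E₁) (ρ : E₁ →ₐ[ℚ_[p]] ℂ_[p])
    (hρ : ∀ y : k, ρ ⟨σ y, hσ y⟩ = σ' y) : Place D p σ' where
  C := P.C
  φ := eqv_phi P hv ρ
  base := by
    intro c
    obtain ⟨h, hh⟩ := P.base c
    refine ⟨h, ?_⟩
    rw [eqv_phi_apply, ← hρ c]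
    congr 1
    exact Subtype.ext hh
  ker := by
    intro x
    rw [← P.ker x, eqv_phi_apply]
    constructor
    · intro h
      have h1 : (⟨P.φ x, hv x⟩ : E₁) = 0 := (map_eq_zero ρ).1 h
      exact congrArg Subtype.val h1
    · intro h
      have h1 : (⟨P.φ x, hv x⟩ : E₁) = 0 := Subtype.ext h
      rw [h1, map_zero]
  E := ρ.fieldRange
  finE := by
    change FiniteDimensional ℚ_[p] (LinearMap.range ρ.toLinearMap)
    infer_instance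
  kum := by
    intro x hx M hM δ hδ c g hcg
    have hx' : P.φ x ≠ 0 := by
      intro h
      apply hx
      rw [eqv_phi_apply]
      have h1 : (⟨P.φ x, hv x⟩ : E₁) = 0 := Subtype.ext h
      rw [h1, map_zero]
    obtain ⟨w, hw, -, hcw⟩ := hk x hx' M hM c g hcg
    refine ⟨ρ ⟨w, hw⟩, ⟨⟨w, hw⟩, rfl⟩, eqv_phi P hv ρ x, ⟨⟨P.φ x, hv x⟩, rfl⟩, ?_, ?_⟩
    · rw [sub_self, norm_zero]
      exact hδ
    · rw [← hρ c, eqv_phi_apply, ← map_pow, ← map_mul]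
      congr 1
      exact Subtype.ext hcw

end

theorem st_EQV (hPL : Pool.Agent.Helper22.TW.ST_PL) (hU : Pool.Agent.Helper22.TW.ST_UNQ) :
    ST_EQV := by
  intro k Ω _ _ _ _ _ D p _ σ σ' E₁ hfin hσ ρ hρ P P'
  obtain ⟨hv, hk⟩ := hPL k Ω D p σ E₁ hfin hσ P
  obtain ⟨h1, h2⟩ := hU k Ω D p σ' (eqv_place P hv hk hσ ρ hρ) P'
  refine ⟨h1, fun x hx hx' => ⟨hv ⟨x, hx⟩, ?_⟩⟩
  rw [← h2 x hx hx']
  rfl

end Pool.Agent.Helper22.FF
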