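import Pool.Agent.Helper22.FF.Sect

/-!
# CTB: countability
-/

set_option autoImplicit false

namespace Pool.Agent.Helper22.FF

open Pool.Agent.Helper14.BSC Polynomial Pool.Agent.Helper60.FF Pool.Agent.Helper18.FF3

theorem ctb_countable (F : Type) [Field F] [CharZero F] (hF : (⊤ : IntermediateField ℚ F).FG) :
    Countable F := by
  obtain ⟨S, hS⟩ := hF
  have h1 : Cardinal.mk (IntermediateField.adjoin ℚ (S : Set F)) ≤
      max (max (Cardinal.mk ℚ) (Cardinal.mk (S : Set F))) Cardinal.aleph0 :=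
    IntermediateField.cardinalMk_adjoin_le ℚ (S : Set F)
  have h2 : Cardinal.mk (S : Set F) ≤ Cardinal.aleph0 := by
    have : Countable (S : Set F) := inferInstance
    exact Cardinal.mk_le_aleph0_iff.2 this
  have h3 : Cardinal.mk ℚ ≤ Cardinal.aleph0 := Cardinal.mk_le_aleph0_iff.2 inferInstance
  have h4 := h1.trans (max_le (max_le h3 h2) le_rfl)
  rw [hS] at h4
  have h5 : Countable (⊤ : IntermediateField ℚ F) := Cardinal.mk_le_aleph0_iff.1 h4
  exact (IntermediateField.topEquiv (F := ℚ) (E := F)).symm.injective.countable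

theorem st_CTB : ST_CTB := by
  intro F Ω _ _ _ _ hF
  have h1 : Countable F := ctb_countable F hF
  have h2 : Cardinal.mk (Acl F Ω) ≤ max (Cardinal.mk F) Cardinal.aleph0 :=
    Algebra.IsAlgebraic.cardinalMk_le_max F (Acl F Ω)
  have h3 : Cardinal.mk F ≤ Cardinal.aleph0 := Cardinal.mk_le_aleph0_iff.2 h1
  exact Cardinal.mk_le_aleph0_iff.1 (h2.trans (max_le h3 le_rfl))

end Pool.Agent.Helper22.FF
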